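import Pool.Agent.H64.EP.Targets

/-!
# Module TF of the board `ep_modules` (MP_e01ba1_co)
-/

set_option autoImplicit false

namespace Pool.Agent.H59.EP.TF

open Pool.Agent.H64.EP

theorem rel_symm {k L R : ℕ} {i j : Fin k} {e : Sym2 (Fin k)}
    {x z : (Fin L × Fin R) × (Fin L → Fin R)} (h : rel i j e x z) : rel j i e z x :=
  ⟨fun hj hi => h.2.1 hi hj, fun hj hi => h.1 hi hj, fun hj hi t ht => h.2.2 hi hj t ht.symm⟩

theorem pf_TF : T_TF := by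
  intro k L R p q w
  refine ⟨fun h => ⟨fun h1 => h.1 h1.symm, fun e => rel_symm (h.2 e)⟩, fun h1 h2 h3 => ?_⟩
  have hpe : p.1 ∈ s(p.1, q.1) := Sym2.mem_mk_left _ _
  have hqe : q.1 ∈ s(p.1, q.1) := Sym2.mem_mk_right _ _
  have hwe : w.1 ∉ s(p.1, q.1) := by
    rw [Sym2.mem_iff]
    rintro (h | h)
    · exact h3.1 h.symm
    · exact h2.1 h.symm
  have a1 := (h1.2 s(p.1, q.1)).2.2 hpe hqe
  have a2 := (h2.2 s(p.1, q.1)).1 hqe hwe
  have a3 := (h3.2 s(p.1, q.1)).1 hpe hwe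
  exact a1 _ (a3.trans a2.symm)

end Pool.Agent.H59.EP.TF
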